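import Pool.Agent.N484.KP.Stm
set_option autoImplicit false

/-! From tubes to boxes. -/

namespace Pool.Agent.N484.KP

open MeasureTheory Set KC
open scoped ENNReal

/-- the bilinear inequality for families of tubes -/
theorem tubeTest {n : ℕ} (hn : 2 ≤ n) {q : ℝ} (hq : (n : ℝ) / ((n : ℝ) - 1) ≤ q) :
    ∃ C : ℝ, 0 < C ∧ ∀ (ι : Type) [Fintype ι] (a e : ι → E n) (δ : ℝ), 0 < δ → δ < 1 →
      (∀ i, ‖e i‖ = 1) → (∀ i j, i ≠ j → δ ≤ ‖e i - e j‖) →
      Test q (ENNReal.ofReal (C * (δ ^ (((n : ℝ) - 1) / q) *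
        (Fintype.card ι : ℝ) ^ (1 - 1 / (q * ((n : ℝ) - 1))))))
        (fun x => ∑ i, ind (cyl (e i) (1 / 2) δ) (x - a i)) := by
  have hn2 : (2 : ℝ) ≤ n := by exact_mod_cast hn
  have hn1 : (0 : ℝ) < (n : ℝ) - 1 := by linarith
  have hq₀1 : 1 < (n : ℝ) / ((n : ℝ) - 1) := by rw [lt_div_iff₀ hn1]; linarith
  have hq1 : 1 < q := hq₀1.trans_le hq
  have hq0 : 0 < q := by linarith
  have hqm : 0 < q - 1 := by linarith
  obtain ⟨C, hC, h⟩ := ker_gen hn hq
  have hr : 1 < q / (q - 1) := by rw [lt_div_iff₀ hqm]; linarith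
  set D : ℝ := (cH (q / (q - 1))).toReal with hD
  have hD0 : 0 ≤ D := ENNReal.toReal_nonneg
  have hDe : cH (q / (q - 1)) = ENNReal.ofReal D := (ENNReal.ofReal_toReal (cH_ne_top hr)).symm
  refine ⟨2 ^ n * (C * (2 * D)) + 1, by positivity, ?_⟩
  intro ι _ a e δ hδ hδ1 he hsep F G hF hG
  have e1 : pe (q / (q - 1)) = dq q := by
    unfold pe dq
    have h1 : q - 1 ≠ 0 := hqm.ne'
    have h2 : 2 * q - 1 ≠ 0 := by linarith
    have h3 : q + (q - 1) ≠ 0 := by linarith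
    field_simp
    ring
  have e2 : 1 / (q / (q - 1)) = 1 - 1 / q := by field_simp
  set r : ℝ := δ ^ (((n : ℝ) - 1) / q) * (Fintype.card ι : ℝ) ^ (1 - 1 / (q * ((n : ℝ) - 1)))
    with hrd
  have hr0 : 0 ≤ r := by positivity
  have h1 := form_hls δ hδ a e he (fun _ => (1 : ℝ≥0∞)) hr (ENNReal.ofReal (C * r))
    (fun B hB => by rw [e2]; exact h δ hδ hδ1 e he hsep B hB) F G hF hG
  rw [e1, ← cv_form δ a e (fun _ => (1 : ℝ≥0∞)) hF hG] at h1
  have h2 : ∫⁻ x, cv F G x * ∑ i, ind (cyl (e i) (1 / 2) δ) (x - a i) =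
      ∫⁻ x, cv F G x * ∑ i, (1 : ℝ≥0∞) * ind (cyl (e i) (1 / 2) δ) (x - a i) := by
    refine lintegral_congr fun x => ?_
    simp only [one_mul]
  simp only
  rw [h2]
  refine h1.trans ?_
  gcongr ?_ * _ * _
  rw [hDe]
  have e3 : (2 : ℝ≥0∞) = ENNReal.ofReal 2 := by norm_num
  have e4 : (2 : ℝ≥0∞) ^ n = ENNReal.ofReal (2 ^ n) := by
    rw [ENNReal.ofReal_pow (by norm_num), ← e3]
  rw [e4, e3, ← ENNReal.ofReal_mul (by norm_num), ← ENNReal.ofReal_mul (by positivity),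
    ← ENNReal.ofReal_mul (by positivity)]
  refine ENNReal.ofReal_le_ofReal ?_
  nlinarith

theorem Test.mono {n : ℕ} {q : ℝ} {A : ℝ≥0∞} {M M' : E n → ℝ≥0∞} (h : Test q A M')
    (hM : ∀ x, M x ≤ M' x) : Test q A M := by
  intro F G hF hG
  refine le_trans (lintegral_mono fun x => ?_) (h F G hF hG)
  exact mul_le_mul' le_rfl (hM x)

theorem Test.const {n : ℕ} {q : ℝ} {A A' : ℝ≥0∞} {M : E n → ℝ≥0∞} (h : Test q A M)
    (hA : A ≤ A') : Test q A' M := by
  intro F G hF hG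
  refine (h F G hF hG).trans ?_
  gcongr

theorem Test.sum {n : ℕ} {q : ℝ} {A : ℝ≥0∞} {κ : Type} (s : Finset κ) (M : κ → E n → ℝ≥0∞)
    (hm : ∀ k ∈ s, Measurable (M k)) (h : ∀ k ∈ s, Test q A (M k)) :
    Test q ((s.card : ℝ≥0∞) * A) (fun x => ∑ k ∈ s, M k x) := by
  intro F G hF hG
  have hc := cv_meas hF hG
  simp_rw [Finset.mul_sum]
  have hmm : ∀ k ∈ s, AEMeasurable (fun x => cv F G x * M k x) volume := fun k hk =>
    (hc.mul (hm k hk)).aemeasurable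
  rw [lintegral_finsetSum' _ hmm]
  calc ∑ k ∈ s, ∫⁻ x, cv F G x * M k x ≤ ∑ _k ∈ s, A * nr (dq q) F * nr (dq q) G :=
        Finset.sum_le_sum fun k hk => h k hk F G hF hG
    _ = _ := by rw [Finset.sum_const, nsmul_eq_mul]; ring

theorem nv_ne {d : ℕ} (x : Rn (d + 1)) : nv x ≠ 0 := by
  intro h
  have h1 := congrArg (fun v : Rn (d + 1) => v (Fin.last d)) h
  simp [nv] at h1

theorem norm_nor {d : ℕ} (x : Rn (d + 1)) : ‖nor x‖ = 1 := by
  unfold nor
  rw [norm_smul, norm_inv, norm_norm, inv_mul_cancel₀ (norm_ne_zero_iff.2 (nv_ne x))]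

theorem box_meas {d : ℕ} (N : ℝ) (e : Rn (d + 1)) (f : Fin d → Rn (d + 1)) (a : Rn (d + 1)) :
    MeasurableSet (box N e f a) := by
  have : IsClosed (box N e f a) := by
    have e1 : box N e f a = {y | |inner ℝ e (y - a)| ≤ N ^ 2 / 2} ∩
        ⋂ j, {y | |inner ℝ (f j) (y - a)| ≤ N / 2} := by
      ext y
      simp [box]
    rw [e1]
    refine IsClosed.inter ?_ (isClosed_iInter fun j => ?_)
    · exact isClosed_le (by fun_prop) continuous_const
    · exact isClosed_le (by fun_prop) continuous_const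
  exact this.measurableSet

theorem boxSum_meas {d : ℕ} {ι : Type} [Fintype ι] (N : ℝ) (x : ι → Rn (d + 1))
    (f : ι → Fin d → Rn (d + 1)) (a : ι → Rn (d + 1)) : Measurable (boxSum N x f a) := by
  unfold boxSum
  exact Finset.measurable_sum _ fun i _ => measurable_const.indicator (box_meas _ _ _ _)

/-- **the bilinear inequality for the boxes** -/
theorem boxTest (h1 : SEP) (h2 : SCALE) (h3 : COVER) {d : ℕ} (hd : 1 ≤ d) {q σ : ℝ}
    (hq : ((d : ℝ) + 1) / d ≤ q) (hσ : 0 < σ) (hσ1 : σ ≤ 1) :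
    ∃ C : ℝ, 0 < C ∧ ∀ (N : ℝ), 1 ≤ N → ∀ (ι : Type) [Fintype ι] (x : ι → Rn (d + 1))
      (f : ι → Fin d → Rn (d + 1)) (a : ι → Rn (d + 1)), Caps σ N x f →
      Test q (ENNReal.ofReal (C * (N ^ (((d : ℝ) + 2) / q) *
        (Fintype.card ι : ℝ) ^ (1 - 1 / (q * d))))) (boxSum N x f a) := by
  have hd0 : (0 : ℝ) < d := by exact_mod_cast hd
  have hcast : (((d + 1 : ℕ) : ℝ)) - 1 = d := by push_cast; ring
  have hcast' : (((d + 1 : ℕ) : ℝ)) = d + 1 := by push_cast; ring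
  have hq1 : 1 < q := lt_of_lt_of_le (by rw [lt_div_iff₀ hd0]; linarith) hq
  have hq0 : 0 < q := by linarith
  obtain ⟨C, hC, ht⟩ := tubeTest (n := d + 1) (by omega) (q := q) (by rw [hcast, hcast']; exact hq)
  obtain ⟨S, hS⟩ := h3 d (9 / σ)
  refine ⟨(S.card * 2 : ℕ) * C * (σ / 9) ^ ((d : ℝ) / q) + 1, by positivity, ?_⟩
  intro N hN ι _ x f a hcap
  obtain ⟨hP, hsep, hon⟩ := hcap
  have hN0 : 0 < N := by linarith
  set δ : ℝ := σ / (9 * N) with hδ
  have hδ0 : 0 < δ := by positivity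
  have hδh : δ ≤ 1 / 2 := by
    rw [hδ, div_le_div_iff₀ (by positivity) (by norm_num)]
    nlinarith
  have hRδ : 1 / N ≤ 9 / σ * δ := by
    rw [hδ]
    have : 9 / σ * (σ / (9 * N)) = 1 / N := by field_simp
    rw [this]
  set e : ι → E (d + 1) := fun i => nor (x i) with he
  have he1 : ∀ i, ‖e i‖ = 1 := fun i => norm_nor _
  have hse : ∀ i j, i ≠ j → δ ≤ ‖e i - e j‖ := by
    intro i j hij
    have g1 := hsep i j hij
    have g2 := h1 d (x i) (x j) (hP i) (hP j)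
    have g3 : σ / N ≤ 9 * ‖e i - e j‖ := g1.trans g2
    have g4 : δ = σ / N / 9 := by rw [hδ]; field_simp
    rw [g4]
    linarith
  set T : Finset (E (d + 1) × ℝ) := S ×ˢ ({-(1 / 4), 1 / 4} : Finset ℝ) with hT
  set M : E (d + 1) × ℝ → E (d + 1) → ℝ≥0∞ := fun p y =>
    ∑ i, ind (cyl (e i) (1 / 2) δ) (y - ((N ^ 2)⁻¹ • a i + δ • p.1 + p.2 • e i)) with hM
  have hMm : ∀ p, Measurable (M p) := by
    intro p
    exact Finset.measurable_sum _ fun i _ => (ind_meas (cyl_meas _ _ _)).comp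
      (measurable_id.sub_const _)
  have ht1 : ∀ p ∈ T, Test q (ENNReal.ofReal (C * (δ ^ ((((d + 1 : ℕ) : ℝ) - 1) / q) *
      (Fintype.card ι : ℝ) ^ (1 - 1 / (q * (((d + 1 : ℕ) : ℝ) - 1)))))) (M p) := fun p _ =>
    ht ι (fun i => (N ^ 2)⁻¹ • a i + δ • p.1 + p.2 • e i) e δ hδ0 (by linarith) he1 hse
  have ht2 := Test.sum T M (fun p _ => hMm p) ht1
  have ht3 := h2 (d + 1) q _ _ (N ^ 2) (by positivity) hq1
    (Finset.measurable_sum _ fun p _ => hMm p) ht2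
  have ht4 := Test.mono ht3 (M := boxSum N x f a) (by
    intro y
    unfold boxSum
    simp only [hM]
    rw [Finset.sum_comm]
    refine Finset.sum_le_sum fun i _ => ?_
    by_cases hy : y ∈ box N (nor (x i)) (f i) (a i)
    · rw [indicator_of_mem hy]
      obtain ⟨v, hv, s, hs, hvs⟩ := hS N δ hN hδ0 hδh hRδ (nor (x i)) (f i) (a i) y (hon i) hy
      have hp : (v, s) ∈ T := Finset.mem_product.2 ⟨hv, hs⟩
      refine le_trans (le_of_eq ?_) (Finset.single_le_sum (f := fun p : E (d + 1) × ℝ =>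
        ind (cyl (e i) (1 / 2) δ) ((N ^ 2)⁻¹ • y - ((N ^ 2)⁻¹ • a i + δ • p.1 + p.2 • e i)))
        (fun _ _ => zero_le) hp)
      simp only
      rw [ind_mem hvs]
    · rw [indicator_of_notMem hy]
      exact zero_le)
  refine Test.const ht4 ?_
  have hcT : (T.card : ℝ≥0∞) ≤ ENNReal.ofReal ((S.card * 2 : ℕ) : ℝ) := by
    rw [ENNReal.ofReal_natCast]
    have : T.card ≤ S.card * 2 := by
      rw [hT, Finset.card_product]
      exact Nat.mul_le_mul_left _ (Finset.card_le_two)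
    exact_mod_cast this
  calc ENNReal.ofReal ((N ^ 2) ^ (((d + 1 : ℕ) : ℝ) / q)) * ((T.card : ℝ≥0∞) *
        ENNReal.ofReal (C * (δ ^ ((((d + 1 : ℕ) : ℝ) - 1) / q) *
        (Fintype.card ι : ℝ) ^ (1 - 1 / (q * (((d + 1 : ℕ) : ℝ) - 1))))))
      ≤ ENNReal.ofReal ((N ^ 2) ^ (((d + 1 : ℕ) : ℝ) / q)) * (ENNReal.ofReal ((S.card * 2 : ℕ) : ℝ) *
        ENNReal.ofReal (C * (δ ^ ((((d + 1 : ℕ) : ℝ) - 1) / q) *
        (Fintype.card ι : ℝ) ^ (1 - 1 / (q * (((d + 1 : ℕ) : ℝ) - 1)))))) := by gcongr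
    _ = ENNReal.ofReal ((N ^ 2) ^ (((d + 1 : ℕ) : ℝ) / q) * (((S.card * 2 : ℕ) : ℝ) *
        (C * (δ ^ ((((d + 1 : ℕ) : ℝ) - 1) / q) *
        (Fintype.card ι : ℝ) ^ (1 - 1 / (q * (((d + 1 : ℕ) : ℝ) - 1))))))) := by
        rw [← ENNReal.ofReal_mul (by positivity), ← ENNReal.ofReal_mul (by positivity)]
    _ ≤ _ := by
        refine ENNReal.ofReal_le_ofReal ?_
        rw [hcast, hcast']
        have e1 : (N ^ 2) ^ (((d : ℝ) + 1) / q) * δ ^ ((d : ℝ) / q) =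
            N ^ (((d : ℝ) + 2) / q) * (σ / 9) ^ ((d : ℝ) / q) := by
          have g1 : δ = σ / 9 * N⁻¹ := by rw [hδ]; field_simp
          rw [g1, Real.mul_rpow (by positivity) (by positivity), Real.inv_rpow hN0.le,
            ← Real.rpow_natCast, ← Real.rpow_mul hN0.le, ← Real.rpow_neg hN0.le]
          have g2 : N ^ (((2 : ℕ) : ℝ) * (((d : ℝ) + 1) / q)) * N ^ (-((d : ℝ) / q)) =
              N ^ (((d : ℝ) + 2) / q) := by
            rw [← Real.rpow_add hN0]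
            congr 1
            push_cast
            field_simp
            ring
          rw [← g2]
          ring
        set c : ℝ := (Fintype.card ι : ℝ) ^ (1 - 1 / (q * (d : ℝ))) with hc
        have hc0 : 0 ≤ c := by positivity
        have hN2 : 0 ≤ N ^ (((d : ℝ) + 2) / q) := by positivity
        calc (N ^ 2) ^ (((d : ℝ) + 1) / q) * (((S.card * 2 : ℕ) : ℝ) * (C * (δ ^ ((d : ℝ) / q) * c)))
            = ((S.card * 2 : ℕ) : ℝ) * C * ((N ^ 2) ^ (((d : ℝ) + 1) / q) * δ ^ ((d : ℝ) / q)) * c := by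
              ring
          _ = ((S.card * 2 : ℕ) : ℝ) * C * (σ / 9) ^ ((d : ℝ) / q) *
                (N ^ (((d : ℝ) + 2) / q) * c) := by rw [e1]; ring
          _ ≤ _ := by
              have : 0 ≤ N ^ (((d : ℝ) + 2) / q) * c := mul_nonneg hN2 hc0
              nlinarith

end Pool.Agent.N484.KP
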