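import Mathlib
import Pool.Agent.N484.KC.G
set_option autoImplicit false

/-! Boxes dual to caps of the paraboloid: definitions. -/

namespace Pool.Agent.N484.KP

open MeasureTheory Set
open scoped ENNReal

/-- The space `ℝ^n`. -/
abbrev Rn (n : ℕ) : Type := EuclideanSpace ℝ (Fin n)

/-- `x` is a point of the truncated paraboloid `x_{d+1} = Σ_{j ≤ d} x_j² ≤ 1` in `ℝ^{d+1}`. -/
def OnP {d : ℕ} (x : Rn (d + 1)) : Prop :=
  x (Fin.last d) = ∑ j : Fin d, x j.castSucc ^ 2 ∧ x (Fin.last d) ≤ 1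

/-- The vector `(-2 x_1, ..., -2 x_d, 1)`. -/
noncomputable def nv {d : ℕ} (x : Rn (d + 1)) : Rn (d + 1) :=
  WithLp.toLp 2 (Fin.snoc (fun j : Fin d => -2 * x j.castSucc) (1 : ℝ))

/-- The unit normal of the paraboloid at `x`. -/
noncomputable def nor {d : ℕ} (x : Rn (d + 1)) : Rn (d + 1) := ‖nv x‖⁻¹ • nv x

/-- The box with centre `a`, with one side of length `N²` in the direction `e` and with sides of
length `N` in the directions `f j`. -/
def box {d : ℕ} (N : ℝ) (e : Rn (d + 1)) (f : Fin d → Rn (d + 1)) (a : Rn (d + 1)) :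
    Set (Rn (d + 1)) :=
  {y | |inner ℝ e (y - a)| ≤ N ^ 2 / 2 ∧ ∀ j, |inner ℝ (f j) (y - a)| ≤ N / 2}

/-- The centres `x i` of the caps are `σ/N`-separated points of the truncated paraboloid and `f i` is
an orthonormal frame of the orthogonal complement of the normal at `x i`. -/
def Caps {d : ℕ} {ι : Type} (σ N : ℝ) (x : ι → Rn (d + 1)) (f : ι → Fin d → Rn (d + 1)) : Prop :=
  (∀ i, OnP (x i)) ∧ (∀ i j, i ≠ j → σ / N ≤ ‖x i - x j‖) ∧
    ∀ i, Orthonormal ℝ (Fin.cons (nor (x i)) (f i) : Fin (d + 1) → Rn (d + 1))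

/-- The function `Σ_i T_i`, `T_i` the indicator function of the box at `x i` with centre `a i`. -/
noncomputable def boxSum {d : ℕ} {ι : Type} [Fintype ι] (N : ℝ) (x : ι → Rn (d + 1))
    (f : ι → Fin d → Rn (d + 1)) (a : ι → Rn (d + 1)) (y : Rn (d + 1)) : ℝ≥0∞ :=
  ∑ i, (box N (nor (x i)) (f i) (a i)).indicator (fun _ => (1 : ℝ≥0∞)) y

end Pool.Agent.N484.KP
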