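import Pool.Agent.N484.KP.Asm
set_option autoImplicit false

/-! The final theorem from the parts. -/

namespace Pool.Agent.N484.KP

open MeasureTheory Set KC
open scoped ENNReal Pointwise

noncomputable def lp {n : ℕ} (p : ℝ) (F : Rn n → ℝ≥0∞) : ℝ≥0∞ := (∫⁻ x, F x ^ p) ^ (1 / p)

/-- the three inequalities -/
def Bounds {n : ℕ} (q : ℝ) (K : ℝ≥0∞) (M : Rn n → ℝ≥0∞) : Prop :=
  ((∀ F G : Rn n → ℝ≥0∞, Measurable F → Measurable G →
      ∫⁻ x, cv F G x * M x ≤ K * lp (2 * q / (2 * q - 1)) F * lp (2 * q / (2 * q - 1)) G) ∧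
    (∀ F : Rn n → ℝ≥0∞, Measurable F → lp (2 * q) (cv M F) ≤ K * lp (2 * q / (2 * q - 1)) F)) ∧
  (∀ A B : Set (Rn n), MeasurableSet A → MeasurableSet B → volume A ≠ ∞ →
    volume A ^ (1 / (2 * q)) * ∫⁻ x in B, M x ≤ K * volume (A + B) ^ (1 - 1 / (2 * q))) ∧
  ∀ (μ : ℝ≥0∞) (A B : Set (Rn n)), MeasurableSet A → MeasurableSet B → volume A ≠ ∞ →
    volume B ≠ ∞ → (∀ x ∈ B, μ ≤ M x) →
    μ * en A B ^ (1 - 1 / (2 * q)) ≤
      K * (volume A ^ (2 - 3 / (2 * q)) * volume B ^ (1 - 1 / q))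

theorem bounds_of {n : ℕ} {q : ℝ} (hq : 1 < q) {K : ℝ≥0∞} {M : Rn n → ℝ≥0∞} (hM : Measurable M)
    (hT : Test q K M) : Bounds q K M :=
  ⟨⟨hT, fun F hF => op_of hq hM hT F hF⟩,
    fun A B hA hB hAf => sum_of hq hM hT A B hA hB hAf,
    fun μ A B hA hB hAf hBf hμ => energy_of hq hT A B hA hB hAf hBf μ hμ⟩

theorem q_gt {d : ℕ} (hd : 1 ≤ d) {q : ℝ} (hq : ((d : ℝ) + 1) / d ≤ q) : 1 < q := by
  have hd0 : (0 : ℝ) < d := by exact_mod_cast hd
  exact lt_of_lt_of_le (by rw [lt_div_iff₀ hd0]; linarith) hq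

theorem boxSum_le {d : ℕ} {ι : Type} [Fintype ι] (N : ℝ) (x : ι → Rn (d + 1))
    (f : ι → Fin d → Rn (d + 1)) (a : ι → Rn (d + 1)) (y : Rn (d + 1)) :
    boxSum N x f a y ≤ ENNReal.ofReal (Fintype.card ι : ℝ) := by
  unfold boxSum
  rw [ENNReal.ofReal_natCast]
  calc ∑ i, (box N (nor (x i)) (f i) (a i)).indicator (fun _ => (1 : ℝ≥0∞)) y
      ≤ ∑ _i : ι, (1 : ℝ≥0∞) := Finset.sum_le_sum fun i _ => indicator_le_self' (by simp) _
    _ = _ := by rw [Finset.sum_const, Finset.card_univ, nsmul_eq_mul, mul_one]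

theorem boxSum_int {d : ℕ} {ι : Type} [Fintype ι] (N : ℝ) (x : ι → Rn (d + 1))
    (f : ι → Fin d → Rn (d + 1)) (a : ι → Rn (d + 1))
    (hb : ∀ i, Bornology.IsBounded (box N (nor (x i)) (f i) (a i))) :
    ∫⁻ y, boxSum N x f a y ≠ ∞ := by
  unfold boxSum
  rw [lintegral_finsetSum _ fun i _ => measurable_const.indicator (box_meas _ _ _ _)]
  refine (ENNReal.sum_lt_top.2 fun i _ => ?_).ne
  rw [lintegral_indicator (box_meas _ _ _ _), lintegral_const, one_mul,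
    Measure.restrict_apply_univ]
  exact (hb i).measure_lt_top

theorem box_bdd {d : ℕ} {N : ℝ} {e : Rn (d + 1)} {f : Fin d → Rn (d + 1)} (a : Rn (d + 1))
    (ho : Orthonormal ℝ (Fin.cons e f : Fin (d + 1) → Rn (d + 1))) :
    Bornology.IsBounded (box N e f a) := by
  -- Parseval
  have hcard : Fintype.card (Fin (d + 1)) = Module.finrank ℝ (Rn (d + 1)) := by simp
  set b := basisOfOrthonormalOfCardEqFinrank ho hcard with hb
  have hbc : (b : Fin (d + 1) → Rn (d + 1)) = Fin.cons e f :=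
    coe_basisOfOrthonormalOfCardEqFinrank ho hcard
  set ob := b.toOrthonormalBasis (by rw [hbc]; exact ho) with hob
  have hobc : ∀ i, ob i = (Fin.cons e f : Fin (d + 1) → Rn (d + 1)) i := by
    intro i
    rw [hob, Module.Basis.coe_toOrthonormalBasis, hbc]
  refine (Metric.isBounded_iff_subset_closedBall a).2
    ⟨√(∑ _i : Fin (d + 1), (max (N ^ 2 / 2) (N / 2)) ^ 2), fun y hy => ?_⟩
  rw [Metric.mem_closedBall, dist_eq_norm]
  refine Real.le_sqrt_of_sq_le ?_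
  rw [← ob.sum_sq_norm_inner_right (y - a)]
  refine Finset.sum_le_sum fun i _ => ?_
  rw [hobc i]
  refine pow_le_pow_left₀ (norm_nonneg _) ?_ 2
  rw [Real.norm_eq_abs]
  refine Fin.cases ?_ (fun j => ?_) i
  · rw [Fin.cons_zero]
    exact hy.1.trans (le_max_left _ _)
  · rw [Fin.cons_succ]
    exact (hy.2 j).trans (le_max_right _ _)

theorem main (h1 : SEP) (h2 : SCALE) (h3 : COVER) (h4 : LOW) (d : ℕ) (hd : 1 ≤ d) (σ : ℝ)
    (hσ : 0 < σ) (hσ1 : σ ≤ 1) :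
    (∀ q : ℝ, ((d : ℝ) + 1) / d ≤ q → ∃ C : ℝ, 0 < C ∧ ∀ (N : ℝ), 1 ≤ N → ∀ (ι : Type) [Fintype ι]
      (x : ι → Rn (d + 1)) (f : ι → Fin d → Rn (d + 1)) (a : ι → Rn (d + 1)), Caps σ N x f →
      Bounds q (ENNReal.ofReal (C * (N ^ (((d : ℝ) + 2) / q) *
        (Fintype.card ι : ℝ) ^ (1 - 1 / (q * d))))) (boxSum N x f a)) ∧
    (∀ q κ : ℝ, ((d : ℝ) + 1) / d ≤ q → 0 < κ → ∃ C : ℝ, 0 < C ∧ ∀ (N : ℝ), 1 ≤ N →
      ∀ (ι : Type) [Fintype ι] (x : ι → Rn (d + 1)) (f : ι → Fin d → Rn (d + 1))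
      (a : ι → Rn (d + 1)), Caps σ N x f → κ * N ^ d ≤ (Fintype.card ι : ℝ) →
      Bounds q (ENNReal.ofReal C * lp q (boxSum N x f fun _ => 0)) (boxSum N x f a)) ∧
    (∀ q κ : ℝ, ((d : ℝ) + 1) / d < q → 0 < κ → ∃ C : ℝ, 0 < C ∧ ∀ (N : ℝ), 1 ≤ N →
      ∀ (ι : Type) [Fintype ι] (x : ι → Rn (d + 1)) (f : ι → Fin d → Rn (d + 1))
      (a : ι → Rn (d + 1)) (τ : ℝ), Caps σ N x f → κ * N ^ d ≤ (Fintype.card ι : ℝ) → 0 < τ →
      Structured τ (boxSum N x f a) →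
      lp q (boxSum N x f a) ≤ ENNReal.ofReal (C * τ ^ (-((((d : ℝ) + 1) / d + 1 / 2) / q))) *
        lp q (boxSum N x f fun _ => 0)) := by
  have hd0 : (0 : ℝ) < d := by exact_mod_cast hd
  refine ⟨?_, ?_, ?_⟩
  · intro q hq
    obtain ⟨C, hC, h⟩ := boxTest h1 h2 h3 hd hq hσ hσ1
    exact ⟨C, hC, fun N hN ι _ x f a hc =>
      bounds_of (q_gt hd hq) (boxSum_meas _ _ _ _) (h N hN ι x f a hc)⟩
  · intro q κ hq hκ
    obtain ⟨C, hC, h⟩ := boxTest h1 h2 h3 hd hq hσ hσ1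
    obtain ⟨D, hD, h'⟩ := h4 d hd q κ (q_gt hd hq) hκ
    refine ⟨C * D, by positivity, fun N hN ι _ x f a hc hcard =>
      bounds_of (q_gt hd hq) (boxSum_meas _ _ _ _) (Test.const (h N hN ι x f a hc) ?_)⟩
    have hl := h' N hN ι x f hc.2.2 hcard
    rw [ENNReal.ofReal_mul hC.le, ENNReal.ofReal_mul hC.le, mul_assoc]
    exact mul_le_mul' le_rfl hl
  · intro q κ hq hκ
    set q₀ : ℝ := ((d : ℝ) + 1) / d with hq₀
    have hq₀1 : 1 < q₀ := q_gt hd le_rfl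
    have hq₀0 : 0 < q₀ := by linarith
    have hq0 : 0 < q := by linarith
    have hqq : 0 < q - q₀ := by linarith
    obtain ⟨C, hC, h⟩ := boxTest h1 h2 h3 hd (q := q₀) le_rfl hσ hσ1
    obtain ⟨D, hD, h'⟩ := h4 d hd q κ (by linarith) hκ
    refine ⟨(q / (q - q₀) * C ^ q₀) ^ (1 / q) * D, by positivity, ?_⟩
    intro N hN ι _ x f a τ hc hcard hτ hS
    have hN0 : 0 < N := by linarith
    have hT := h N hN ι x f a hc
    have hl := h' N hN ι x f hc.2.2 hcard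
    set m : ℝ := (Fintype.card ι : ℝ) with hm
    have hm0 : 0 < m := lt_of_lt_of_le (by positivity) hcard
    set R : ℝ → ℝ := fun p => N ^ (((d : ℝ) + 2) / p) * m ^ (1 - 1 / (p * d)) with hR
    have hR0 : ∀ p, 0 < R p := fun p => by simp only [hR]; positivity
    have hMi := boxSum_int N x f a (fun i => box_bdd (a i) (hc.2.2 i))
    have hw := weak_of hq₀1 (mul_pos hC (hR0 q₀)) (boxSum_meas N x f a) hMi hT hτ hS
    have hst := strong_of hq₀0 hq (W := (C * R q₀) ^ q₀ * τ ^ (-(q₀ + 1 / 2)))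
      (by have := hR0 q₀; positivity) hm0.le (boxSum_meas N x f a) (boxSum_le N x f a) hw
    have e1 : (C * R q₀) ^ q₀ * m ^ (q - q₀) = C ^ q₀ * R q ^ q := by
      simp only [hR]
      rw [Real.mul_rpow hC.le (by positivity), Real.mul_rpow (by positivity) (by positivity),
        Real.mul_rpow (by positivity) (by positivity), ← Real.rpow_mul hN0.le,
        ← Real.rpow_mul hN0.le, ← Real.rpow_mul hm0.le, ← Real.rpow_mul hm0.le]
      have e2 : ((d : ℝ) + 2) / q₀ * q₀ = ((d : ℝ) + 2) / q * q := by field_simp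
      rw [e2]
      have e3 : m ^ ((1 - 1 / (q₀ * (d : ℝ))) * q₀) * m ^ (q - q₀) =
          m ^ ((1 - 1 / (q * (d : ℝ))) * q) := by
        rw [← Real.rpow_add hm0]
        congr 1
        field_simp
        ring
      rw [← e3]
      ring
    have e4 : q / (q - q₀) * ((C * R q₀) ^ q₀ * τ ^ (-(q₀ + 1 / 2))) * m ^ (q - q₀) =
        (q / (q - q₀) * C ^ q₀) * τ ^ (-(q₀ + 1 / 2)) * R q ^ q := by
      calc _ = q / (q - q₀) * τ ^ (-(q₀ + 1 / 2)) *
            ((C * R q₀) ^ q₀ * m ^ (q - q₀)) := by ring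
        _ = _ := by rw [e1]; ring
    rw [e4] at hst
    have hRq := hR0 q
    unfold lp
    calc (∫⁻ y, boxSum N x f a y ^ q) ^ (1 / q)
        ≤ (ENNReal.ofReal ((q / (q - q₀) * C ^ q₀) * τ ^ (-(q₀ + 1 / 2)) * R q ^ q)) ^ (1 / q) :=
          ENNReal.rpow_le_rpow hst (by positivity)
      _ = ENNReal.ofReal ((q / (q - q₀) * C ^ q₀) ^ (1 / q) * τ ^ (-((q₀ + 1 / 2) / q))) *
            ENNReal.ofReal (R q) := by
          rw [ENNReal.ofReal_rpow_of_nonneg (by positivity) (by positivity),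
            Real.mul_rpow (by positivity) (by positivity),
            Real.mul_rpow (by positivity) (by positivity), ← Real.rpow_mul hτ.le,
            ← Real.rpow_mul hRq.le, mul_one_div_cancel hq0.ne', Real.rpow_one,
            ENNReal.ofReal_mul (by positivity)]
          congr 4
          ring
      _ ≤ ENNReal.ofReal ((q / (q - q₀) * C ^ q₀) ^ (1 / q) * τ ^ (-((q₀ + 1 / 2) / q))) *
            (ENNReal.ofReal D * (∫⁻ y, boxSum N x f (fun _ => 0) y ^ q) ^ (1 / q)) :=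
          mul_le_mul' le_rfl hl
      _ = _ := by
          rw [← mul_assoc, ← ENNReal.ofReal_mul (by positivity)]
          congr 2
          ring

end Pool.Agent.N484.KP
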