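import Pool.Agent.N484.KP.Stm
set_option autoImplicit false

/-! Lower bound for the norm of the sum of the boxes centred at `0`. -/

namespace Pool.Agent.N484.KP

open MeasureTheory Set Metric
open scoped ENNReal

theorem low_real (d : ℕ) (hd : 1 ≤ d) (q κ v N m : ℝ) (hq : 1 < q) (hκ : 0 < κ) (hv : 0 < v)
    (hN : 1 ≤ N) (hm : κ * N ^ d ≤ m) :
    N ^ (((d : ℝ) + 2) / q) * m ^ (1 - 1 / (q * d)) ≤
      (κ ^ (-1 / (q * d)) * (v / 2 ^ (d + 1)) ^ (-1 / q)) *
        (m * ((N / 2) ^ (d + 1) * v) ^ (1 / q)) := by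
  have hd' : (0 : ℝ) < d := by exact_mod_cast hd
  have hq0 : (0 : ℝ) < q := by linarith
  have hN0 : (0 : ℝ) < N := by linarith
  have hk : 0 < κ * N ^ d := by positivity
  have hm0 : 0 < m := lt_of_lt_of_le hk hm
  have h1 : m ^ (1 - 1 / (q * d)) ≤ m * (κ ^ (-1 / (q * d)) * N ^ (-1 / q)) := by
    have e1 : m ^ (1 - 1 / (q * d)) = m * m ^ (-(1 / (q * d))) := by
      rw [sub_eq_add_neg, Real.rpow_add hm0, Real.rpow_one]
    rw [e1]
    refine mul_le_mul_of_nonneg_left ?_ hm0.le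
    have e2 : m ^ (-(1 / (q * d))) ≤ (κ * N ^ d) ^ (-(1 / (q * d))) :=
      Real.rpow_le_rpow_of_nonpos hk hm (by
        have : 0 < 1 / (q * d) := by positivity
        linarith)
    refine e2.trans (le_of_eq ?_)
    rw [Real.mul_rpow hκ.le (by positivity), ← Real.rpow_natCast, ← Real.rpow_mul hN0.le]
    congr 2
    · ring
    · field_simp
  have h2 : ((N / 2) ^ (d + 1) * v) ^ (1 / q) =
      N ^ (((d : ℝ) + 1) / q) * (v / 2 ^ (d + 1)) ^ (1 / q) := by
    have e3 : (N / 2) ^ (d + 1) * v = N ^ (d + 1) * (v / 2 ^ (d + 1)) := by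
      rw [div_pow]; ring
    rw [e3, Real.mul_rpow (by positivity) (by positivity), ← Real.rpow_natCast,
      ← Real.rpow_mul hN0.le]
    congr 2
    push_cast
    ring
  have h3 : (v / 2 ^ (d + 1)) ^ (-1 / q) * (v / 2 ^ (d + 1)) ^ (1 / q) = 1 := by
    rw [← Real.rpow_add (by positivity)]
    have : -1 / q + 1 / q = 0 := by ring
    rw [this, Real.rpow_zero]
  have h4 : N ^ (((d : ℝ) + 2) / q) * N ^ (-1 / q) = N ^ (((d : ℝ) + 1) / q) := by
    rw [← Real.rpow_add hN0]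
    congr 1
    ring
  calc N ^ (((d : ℝ) + 2) / q) * m ^ (1 - 1 / (q * d))
      ≤ N ^ (((d : ℝ) + 2) / q) * (m * (κ ^ (-1 / (q * d)) * N ^ (-1 / q))) :=
        mul_le_mul_of_nonneg_left h1 (by positivity)
    _ = κ ^ (-1 / (q * d)) * m * (N ^ (((d : ℝ) + 2) / q) * N ^ (-1 / q)) := by ring
    _ = κ ^ (-1 / (q * d)) * m * N ^ (((d : ℝ) + 1) / q) *
        ((v / 2 ^ (d + 1)) ^ (-1 / q) * (v / 2 ^ (d + 1)) ^ (1 / q)) := by rw [h4, h3, mul_one]
    _ = (κ ^ (-1 / (q * d)) * (v / 2 ^ (d + 1)) ^ (-1 / q)) *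
        (m * ((N / 2) ^ (d + 1) * v) ^ (1 / q)) := by rw [h2]; ring

theorem ball_sub {d : ℕ} {N : ℝ} (hN : 1 ≤ N) {e : Rn (d + 1)} {f : Fin d → Rn (d + 1)}
    (h : Orthonormal ℝ (Fin.cons e f : Fin (d + 1) → Rn (d + 1))) {y : Rn (d + 1)}
    (hy : y ∈ closedBall (0 : Rn (d + 1)) (N / 2)) : y ∈ box N e f 0 := by
  have hy' : ‖y‖ ≤ N / 2 := by simpa using hy
  have he : ‖e‖ = 1 := by simpa using h.1 0
  have hf : ∀ j, ‖f j‖ = 1 := fun j => by simpa using h.1 j.succ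
  refine ⟨?_, fun j => ?_⟩
  · rw [sub_zero]
    refine (abs_real_inner_le_norm e y).trans ?_
    rw [he, one_mul]
    nlinarith
  · rw [sub_zero]
    refine (abs_real_inner_le_norm (f j) y).trans ?_
    rw [hf, one_mul]
    exact hy'

theorem low_holds : LOW := by
  intro d hd q κ hq hκ
  have hv0 : 0 < volume (ball (0 : Rn (d + 1)) 1) := measure_ball_pos _ _ one_pos
  have hvt : volume (ball (0 : Rn (d + 1)) 1) ≠ ∞ := measure_ball_lt_top.ne
  have hv : 0 < (volume (ball (0 : Rn (d + 1)) 1)).toReal := ENNReal.toReal_pos hv0.ne' hvt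
  set v := (volume (ball (0 : Rn (d + 1)) 1)).toReal with hvdef
  have hvv : volume (ball (0 : Rn (d + 1)) 1) = ENNReal.ofReal v := (ENNReal.ofReal_toReal hvt).symm
  refine ⟨κ ^ (-1 / (q * d)) * (v / 2 ^ (d + 1)) ^ (-1 / q), by positivity, ?_⟩
  intro N hN ι _ x f hf hc
  have hq0 : (0 : ℝ) < q := by linarith
  have hN0 : (0 : ℝ) < N := by linarith
  have h1 : ENNReal.ofReal ((Fintype.card ι : ℝ) * ((N / 2) ^ (d + 1) * v) ^ (1 / q)) ≤
      (∫⁻ y, boxSum N x f (fun _ => 0) y ^ q) ^ (1 / q) := by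
    have e1 : ∀ y ∈ closedBall (0 : Rn (d + 1)) (N / 2),
        ENNReal.ofReal (Fintype.card ι : ℝ) ^ q ≤ boxSum N x f (fun _ => 0) y ^ q := by
      intro y hy
      refine ENNReal.rpow_le_rpow (le_of_eq ?_) hq0.le
      unfold boxSum
      have : ∀ i, (box N (nor (x i)) (f i) ((fun _ => 0 : ι → Rn (d + 1)) i)).indicator
          (fun _ => (1 : ℝ≥0∞)) y = 1 := fun i => indicator_of_mem (ball_sub hN (hf i) hy) _
      rw [Finset.sum_congr rfl fun i _ => this i]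
      simp
    have e2 : ENNReal.ofReal (Fintype.card ι : ℝ) ^ q *
        volume (closedBall (0 : Rn (d + 1)) (N / 2)) ≤ ∫⁻ y, boxSum N x f (fun _ => 0) y ^ q := by
      calc _ = ∫⁻ _ in closedBall (0 : Rn (d + 1)) (N / 2),
            ENNReal.ofReal (Fintype.card ι : ℝ) ^ q := by
              rw [lintegral_const, Measure.restrict_apply_univ]
        _ ≤ ∫⁻ y in closedBall (0 : Rn (d + 1)) (N / 2), boxSum N x f (fun _ => 0) y ^ q :=
            setLIntegral_mono' measurableSet_closedBall e1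
        _ ≤ _ := setLIntegral_le_lintegral _ _
    refine le_trans (le_of_eq ?_) (ENNReal.rpow_le_rpow e2 (by positivity : (0 : ℝ) ≤ 1 / q))
    rw [ENNReal.mul_rpow_of_nonneg _ _ (by positivity), ← ENNReal.rpow_mul,
      mul_one_div_cancel hq0.ne', ENNReal.rpow_one, Measure.addHaar_closedBall _ _ (by positivity),
      hvv, ENNReal.ofReal_mul (by positivity)]
    congr 1
    have h3 : Module.finrank ℝ (Rn (d + 1)) = d + 1 := by simp
    rw [h3, ← ENNReal.ofReal_mul (by positivity), ENNReal.ofReal_rpow_of_pos (by positivity)]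
  calc _ ≤ ENNReal.ofReal ((κ ^ (-1 / (q * d)) * (v / 2 ^ (d + 1)) ^ (-1 / q)) *
        ((Fintype.card ι : ℝ) * ((N / 2) ^ (d + 1) * v) ^ (1 / q))) :=
        ENNReal.ofReal_le_ofReal (low_real d hd q κ v N _ hq hκ hv hN hc)
    _ = ENNReal.ofReal (κ ^ (-1 / (q * d)) * (v / 2 ^ (d + 1)) ^ (-1 / q)) *
        ENNReal.ofReal ((Fintype.card ι : ℝ) * ((N / 2) ^ (d + 1) * v) ^ (1 / q)) :=
        ENNReal.ofReal_mul (by positivity)
    _ ≤ _ := mul_le_mul_right h1 _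

end Pool.Agent.N484.KP
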