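import Pool.Agent.N484.KP.Stm
set_option autoImplicit false

/-! Scaling of the bilinear inequality. -/

namespace Pool.Agent.N484.KP

open MeasureTheory Set
open scoped ENNReal

theorem lint_smul {n : ℕ} {l : ℝ} (hl : 0 < l) (h : KC.E n → ℝ≥0∞) (hh : Measurable h) :
    ∫⁻ x, h x = ENNReal.ofReal (l ^ (n : ℝ)) * ∫⁻ x, h (l • x) := by
  have h1 : Measure.map (fun x : KC.E n => l • x) volume =
      ENNReal.ofReal (abs (l ^ (Module.finrank ℝ (KC.E n)))⁻¹) • volume :=
    Measure.map_addHaar_smul volume hl.ne'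
  have h2 : ∫⁻ x, h (l • x) = ∫⁻ x, h x ∂(Measure.map (fun x : KC.E n => l • x) volume) := by
    rw [lintegral_map hh (measurable_const_smul l)]
  rw [h2, h1, lintegral_smul_measure, smul_eq_mul, ← mul_assoc, ← ENNReal.ofReal_mul (by positivity)]
  have h3 : Module.finrank ℝ (KC.E n) = n := by simp
  rw [h3, abs_of_pos (by positivity), Real.rpow_natCast, mul_inv_cancel₀ (by positivity)]
  simp

theorem nr_smul {n : ℕ} {l p : ℝ} (hl : 0 < l) (hp : 0 < p) (F : KC.E n → ℝ≥0∞) (hF : Measurable F) :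
    KC.nr p (fun x => F (l • x)) = ENNReal.ofReal (l ^ (-(n : ℝ) / p)) * KC.nr p F := by
  unfold KC.nr
  have h1 := lint_smul hl (fun x => F x ^ p) (hF.pow_const p)
  rw [h1, ENNReal.mul_rpow_of_nonneg _ _ (by positivity), ← mul_assoc]
  have h2 : ENNReal.ofReal (l ^ (n : ℝ)) ^ (1 / p) = ENNReal.ofReal (l ^ ((n : ℝ) / p)) := by
    rw [ENNReal.ofReal_rpow_of_pos (by positivity), ← Real.rpow_mul hl.le]
    congr 2
    ring
  rw [h2, ← ENNReal.ofReal_mul (by positivity), ← Real.rpow_add hl]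
  have : -(n : ℝ) / p + (n : ℝ) / p = 0 := by ring
  rw [this]
  simp

theorem scale_holds : SCALE := by
  intro n q A M l hl hq hM hT F G hF hG
  have hp := KC.dq_pos hq
  have hFl : Measurable fun x : KC.E n => F (l • x) := hF.comp (measurable_const_smul l)
  have hGl : Measurable fun x : KC.E n => G (l • x) := hG.comp (measurable_const_smul l)
  have h0 := hT _ _ hFl hGl
  have h1 : ∀ x, KC.cv F G (l • x) = ENNReal.ofReal (l ^ (n : ℝ)) *
      KC.cv (fun x => F (l • x)) (fun x => G (l • x)) x := by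
    intro x
    unfold KC.cv
    rw [lint_smul hl (fun y => F y * G (l • x - y)) (by fun_prop)]
    simp only [smul_sub]
  have hMl : Measurable fun x : KC.E n => M (l⁻¹ • x) := hM.comp (measurable_const_smul l⁻¹)
  rw [lint_smul hl (fun x => KC.cv F G x * M (l⁻¹ • x)) ((KC.cv_meas hF hG).mul hMl)]
  have h2 : ∀ x : KC.E n, l⁻¹ • l • x = x := fun x => by
    rw [smul_smul, inv_mul_cancel₀ hl.ne', one_smul]
  simp only [h1, h2]
  simp only [mul_assoc]
  rw [lintegral_const_mul _ (by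
    exact (KC.cv_meas hFl hGl).mul hM)]
  refine (mul_le_mul_right (mul_le_mul_right h0 _) _).trans (le_of_eq ?_)
  rw [nr_smul hl hp F hF, nr_smul hl hp G hG]
  have h3 : ENNReal.ofReal (l ^ (n : ℝ)) * ENNReal.ofReal (l ^ (n : ℝ)) *
      (ENNReal.ofReal (l ^ (-(n : ℝ) / KC.dq q)) * ENNReal.ofReal (l ^ (-(n : ℝ) / KC.dq q))) =
      ENNReal.ofReal (l ^ ((n : ℝ) / q)) := by
    rw [← ENNReal.ofReal_mul (by positivity), ← ENNReal.ofReal_mul (by positivity),
      ← ENNReal.ofReal_mul (by positivity), ← Real.rpow_add hl, ← Real.rpow_add hl,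
      ← Real.rpow_add hl]
    congr 2
    have h4 := KC.dq_inv hq
    have h5 : -(n : ℝ) / KC.dq q = -(n : ℝ) * (1 - 1 / (2 * q)) := by rw [← h4]; ring
    rw [h5]
    field_simp
    ring
  rw [← h3]
  ring

end Pool.Agent.N484.KP
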