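import Pool.Agent.N484.KP.Stm
set_option autoImplicit false

/-! The normals separate the points of the paraboloid. -/

namespace Pool.Agent.N484.KP

open Set

theorem nsq {n : ℕ} (x : Rn (n + 1)) :
    ‖x‖ ^ 2 = ∑ j : Fin n, x j.castSucc ^ 2 + x (Fin.last n) ^ 2 := by
  rw [EuclideanSpace.norm_sq_eq, Fin.sum_univ_castSucc]
  simp only [Real.norm_eq_abs, sq_abs]

theorem nv_cast {d : ℕ} (x : Rn (d + 1)) (j : Fin d) : nv x j.castSucc = -2 * x j.castSucc := by
  show (Fin.snoc (fun j : Fin d => -2 * x j.castSucc) (1 : ℝ) : Fin (d + 1) → ℝ) j.castSucc = _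
  rw [Fin.snoc_castSucc]

theorem nv_last {d : ℕ} (x : Rn (d + 1)) : nv x (Fin.last d) = 1 := by
  show (Fin.snoc (fun j : Fin d => -2 * x j.castSucc) (1 : ℝ) : Fin (d + 1) → ℝ) (Fin.last d) = _
  rw [Fin.snoc_last]

theorem nv_sq {d : ℕ} (x : Rn (d + 1)) (hx : OnP x) : ‖nv x‖ ^ 2 ≤ 5 := by
  rw [nsq, nv_last]
  have : ∀ j : Fin d, nv x j.castSucc ^ 2 = 4 * x j.castSucc ^ 2 := fun j => by
    rw [nv_cast]; ring
  rw [Finset.sum_congr rfl fun j _ => this j, ← Finset.mul_sum, ← hx.1]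
  have := hx.2
  linarith

theorem nv_ge {d : ℕ} (x : Rn (d + 1)) : 1 ≤ ‖nv x‖ := by
  have h : (1 : ℝ) ≤ ‖nv x‖ ^ 2 := by
    rw [nsq, nv_last]
    have : 0 ≤ ∑ j : Fin d, nv x j.castSucc ^ 2 := Finset.sum_nonneg fun j _ => sq_nonneg _
    linarith
  by_contra hc
  push Not at hc
  have := norm_nonneg (nv x)
  nlinarith

theorem sep1 {d : ℕ} (x y : Rn (d + 1)) (hx : OnP x) (hy : OnP y) :
    ‖x - y‖ ^ 2 ≤ 5 / 4 * ‖nv x - nv y‖ ^ 2 := by
  rw [nsq, nsq]
  have h1 : ∀ j : Fin d, (nv x - nv y) j.castSucc ^ 2 = 4 * (x - y) j.castSucc ^ 2 := fun j => by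
    rw [PiLp.sub_apply, PiLp.sub_apply, nv_cast, nv_cast]; ring
  rw [Finset.sum_congr rfl fun j _ => h1 j, ← Finset.mul_sum]
  have h2 : (nv x - nv y) (Fin.last d) = 0 := by rw [PiLp.sub_apply, nv_last, nv_last, sub_self]
  rw [h2]
  have h3 : (x - y) (Fin.last d) =
      ∑ j : Fin d, (x - y) j.castSucc * (x j.castSucc + y j.castSucc) := by
    rw [PiLp.sub_apply, hx.1, hy.1, ← Finset.sum_sub_distrib]
    refine Finset.sum_congr rfl fun j _ => ?_
    rw [PiLp.sub_apply]; ring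
  have h4 : (x - y) (Fin.last d) ^ 2 ≤
      (∑ j : Fin d, (x - y) j.castSucc ^ 2) * ∑ j : Fin d, (x j.castSucc + y j.castSucc) ^ 2 := by
    rw [h3]
    exact Finset.sum_mul_sq_le_sq_mul_sq _ _ _
  have h5 : ∑ j : Fin d, (x j.castSucc + y j.castSucc) ^ 2 ≤ 4 := by
    calc _ ≤ ∑ j : Fin d, (2 * x j.castSucc ^ 2 + 2 * y j.castSucc ^ 2) :=
          Finset.sum_le_sum fun j _ => by nlinarith [sq_nonneg (x j.castSucc - y j.castSucc)]
      _ = 2 * x (Fin.last d) + 2 * y (Fin.last d) := by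
          rw [Finset.sum_add_distrib, ← Finset.mul_sum, ← Finset.mul_sum, ← hx.1, ← hy.1]
      _ ≤ 4 := by have := hx.2; have := hy.2; linarith
  have h6 : 0 ≤ ∑ j : Fin d, (x - y) j.castSucc ^ 2 := Finset.sum_nonneg fun j _ => sq_nonneg _
  have h7 := mul_le_mul_of_nonneg_left h5 h6
  nlinarith

theorem sep2 {d : ℕ} (x y : Rn (d + 1)) (hx : OnP x) (hy : OnP y) :
    ‖nv x - nv y‖ ≤ 29 / 4 * ‖nor x - nor y‖ := by
  have a1 := nv_ge x
  have b1 := nv_ge y
  have a2 := nv_sq x hx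
  have b2 := nv_sq y hy
  set a := ‖nv x‖ with ha
  set b := ‖nv y‖ with hb
  have a0 : a ≠ 0 := by linarith
  have b0 : b ≠ 0 := by linarith
  have hxe : nv x = a • nor x := by
    unfold nor; rw [← ha, smul_smul, mul_inv_cancel₀ a0, one_smul]
  have hye : nv y = b • nor y := by
    unfold nor; rw [← hb, smul_smul, mul_inv_cancel₀ b0, one_smul]
  have hg : ‖nor y‖ = 1 := by
    unfold nor
    rw [norm_smul, ← hb, Real.norm_eq_abs, abs_of_pos (by positivity), inv_mul_cancel₀ b0]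
  have hl : |a⁻¹ - b⁻¹| ≤ ‖nor x - nor y‖ := by
    have h1 : (nor x - nor y) (Fin.last d) = a⁻¹ - b⁻¹ := by
      rw [PiLp.sub_apply]
      unfold nor
      rw [PiLp.smul_apply, PiLp.smul_apply, nv_last, nv_last, ← ha, ← hb]
      simp
    rw [← h1]
    have := PiLp.norm_apply_le (nor x - nor y) (Fin.last d)
    simpa using this
  have h2 : nv x - nv y = a • (nor x - nor y) + (a - b) • nor y := by
    rw [hxe, hye, smul_sub, sub_smul]
    abel
  have h3 : |a - b| ≤ 5 * ‖nor x - nor y‖ := by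
    have e1 : a - b = a * b * (b⁻¹ - a⁻¹) := by field_simp
    rw [e1, abs_mul, abs_sub_comm]
    have e2 : |a * b| ≤ 5 := by
      rw [abs_of_pos (by positivity)]
      nlinarith [sq_nonneg (a - b)]
    exact mul_le_mul e2 hl (abs_nonneg _) (by norm_num)
  have h4 : a ≤ 9 / 4 := by nlinarith
  calc ‖nv x - nv y‖ = ‖a • (nor x - nor y) + (a - b) • nor y‖ := by rw [h2]
    _ ≤ ‖a • (nor x - nor y)‖ + ‖(a - b) • nor y‖ := norm_add_le _ _
    _ = a * ‖nor x - nor y‖ + |a - b| := by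
        rw [norm_smul, norm_smul, hg, mul_one, Real.norm_eq_abs, Real.norm_eq_abs,
          abs_of_pos (by linarith)]
    _ ≤ 29 / 4 * ‖nor x - nor y‖ := by
        have := mul_le_mul_of_nonneg_right h4 (norm_nonneg (nor x - nor y))
        linarith

theorem sep_holds : SEP := by
  intro d x y hx hy
  have h1 := sep1 x y hx hy
  have h2 := sep2 x y hx hy
  have h3 : ‖x - y‖ ≤ 9 / 8 * ‖nv x - nv y‖ := by
    refine abs_le_of_sq_le_sq' ?_ (by positivity) |>.2
    have := sq_nonneg ‖nv x - nv y‖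
    nlinarith
  have := norm_nonneg (nor x - nor y)
  linarith

end Pool.Agent.N484.KP
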