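import Pool.Agent.N484.KP.Defs
set_option autoImplicit false

/-! Statements of the parts. -/

namespace Pool.Agent.N484.KP

open MeasureTheory Set
open scoped ENNReal

/-- KP/SEP: the normals separate the points of the paraboloid -/
def SEP : Prop := ∀ (d : ℕ) (x y : Rn (d + 1)), OnP x → OnP y → ‖x - y‖ ≤ 9 * ‖nor x - nor y‖

/-- KP/SCALE: scaling of the bilinear inequality -/
def SCALE : Prop := ∀ (n : ℕ) (q : ℝ) (A : ℝ≥0∞) (M : KC.E n → ℝ≥0∞) (l : ℝ), 0 < l → 1 < q →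
  Measurable M → KC.Test q A M →
  KC.Test q (ENNReal.ofReal (l ^ ((n : ℝ) / q)) * A) (fun x => M (l⁻¹ • x))

/-- KP/COVER: a scaled box is covered by boundedly many translates of the thin cylinder -/
def COVER : Prop := ∀ (d : ℕ) (R : ℝ), ∃ S : Finset (Rn (d + 1)), ∀ (N δ : ℝ), 1 ≤ N → 0 < δ →
  δ ≤ 1 / 2 → 1 / N ≤ R * δ → ∀ (e : Rn (d + 1)) (f : Fin d → Rn (d + 1)) (a y : Rn (d + 1)),
  Orthonormal ℝ (Fin.cons e f : Fin (d + 1) → Rn (d + 1)) → y ∈ box N e f a →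
  ∃ v ∈ S, ∃ s ∈ ({-(1 / 4), 1 / 4} : Finset ℝ),
    (N ^ 2)⁻¹ • y - ((N ^ 2)⁻¹ • a + δ • v + s • e) ∈ KC.cyl e (1 / 2) δ

/-- KP/LOW: lower bound for the norm of the sum of the boxes centred at `0` -/
def LOW : Prop := ∀ (d : ℕ), 1 ≤ d → ∀ q κ : ℝ, 1 < q → 0 < κ → ∃ C : ℝ, 0 < C ∧
  ∀ (N : ℝ), 1 ≤ N → ∀ (ι : Type) [Fintype ι] (x : ι → Rn (d + 1)) (f : ι → Fin d → Rn (d + 1)),
  (∀ i, Orthonormal ℝ (Fin.cons (nor (x i)) (f i) : Fin (d + 1) → Rn (d + 1))) →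
  κ * N ^ d ≤ (Fintype.card ι : ℝ) →
  ENNReal.ofReal (N ^ (((d : ℝ) + 2) / q) * (Fintype.card ι : ℝ) ^ (1 - 1 / (q * d))) ≤
    ENNReal.ofReal C * (∫⁻ y, boxSum N x f (fun _ => 0) y ^ q) ^ (1 / q)

end Pool.Agent.N484.KP
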